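import Mathlib
import Pool.Agent.Helper877.Chou.Main

/-!
# Chou's property `P`
-/

set_option autoImplicit false

namespace Pool.Agent.Results.MP_51c6d3_al.TwoSidedTiles

open Pool.Agent.Helper877.Chou

/-- (1) For every group `G`, property `P` is equivalent to: every finite subset is contained in a finite
set `S` for which there is `X ⊆ G` with `G = S X` and `G = X S` exactly (each element has exactly one
factorisation of either kind).
(2) If every finite subset `F` of `G` embeds in some quotient of `G` having `P`, then `G` has `P`.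
(3) If every finite subset `F` of `G` embeds in some quotient `G/N` of `G` in which its image lies in a
finite subgroup `K/N`, then `G` has `P`.
(4) Residually finite groups, (5) locally finite groups and (6) abelian groups have `P`. -/
theorem result :
    (∀ (G : Type) [Group G], PropP G ↔
      ∀ F : Finset G, ∃ (S : Finset G) (X : Set G), F ⊆ S ∧ TwoSidedTile G S X) ∧
    (∀ (G : Type) [Group G], (∀ F : Finset G, ∃ (Q : Type) (_ : Group Q) (π : G →* Q),
      Function.Surjective π ∧ Set.InjOn π (F : Set G) ∧ PropP Q) → PropP G) ∧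
    (∀ (G : Type) [Group G], (∀ F : Finset G, ∃ N : Subgroup G, N.Normal ∧
      (∀ f₁ ∈ F, ∀ f₂ ∈ F, f₁⁻¹ * f₂ ∈ N → f₁ = f₂) ∧
      ∃ K : Subgroup G, N ≤ K ∧ (∀ f ∈ F, f ∈ K) ∧ N.relIndex K ≠ 0) → PropP G) ∧
    (∀ (G : Type) [Group G],
      (∀ g : G, g ≠ 1 → ∃ N : Subgroup G, N.Normal ∧ N.FiniteIndex ∧ g ∉ N) → PropP G) ∧
    (∀ (G : Type) [Group G], (∀ F : Finset G, Finite (Subgroup.closure (F : Set G))) → PropP G) ∧
    (∀ (G : Type) [CommGroup G], PropP G) :=
  ⟨fun G _ => propP_iff G, fun G _ h => propP_of_residually G h,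
    fun G _ h => propP_of_finite_in_quotient G h, fun G _ h => propP_residually_finite G h,
    fun G _ h => propP_locally_finite G h, fun G _ => propP_comm G⟩

end Pool.Agent.Results.MP_51c6d3_al.TwoSidedTiles
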